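import Mathlib

/-!
Menger's theorem for the networks of an integer potential, via Hall's theorem.
-/

set_option autoImplicit false

open Finset

namespace Pool.Agent.H86.Chung

/-- there are `k` internally disjoint `v`-`w` paths of length at most `d` -/
def Fam {V : Type*} (G : SimpleGraph V) (v w : V) (d k : ℕ) : Prop :=
  ∃ f : Fin k → G.Walk v w, (∀ i, (f i).IsPath ∧ (f i).length ≤ d) ∧
    ∀ i j, i ≠ j → ∀ x, x ∈ (f i).support → x ∈ (f j).support → x = v ∨ x = w

variable {V : Type*} [Fintype V] [DecidableEq V]

/-- neighbourhoods in the auxiliary bipartite graph -/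
noncomputable def nb (G : SimpleGraph V) (v w : V) (q : V → ℤ) (k : ℕ) :
    Fin k ⊕ V → Finset (V ⊕ Fin k) := by
  classical
  exact fun a => match a with
    | Sum.inl _ => (univ.filter fun y => G.Adj v y ∧ q v + 1 ≤ q y).image Sum.inl
    | Sum.inr x => insert (Sum.inl x)
        (((univ.filter fun y => y ≠ w ∧ G.Adj x y ∧ q x + 1 ≤ q y).image Sum.inl) ∪
          (if G.Adj x w ∧ q x + 1 ≤ q w then univ.image Sum.inr else ∅))

/-- orbit of source `i` under the matching `φ` -/
inductive Orb {k : ℕ} (φ : Fin k ⊕ V → V ⊕ Fin k) (i : Fin k) : V → Prop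
  | base (x : V) (h : φ (Sum.inl i) = Sum.inl x) : Orb φ i x
  | step (x y : V) (hx : Orb φ i x) (h : φ (Sum.inr x) = Sum.inl y) : Orb φ i y

theorem Orb.ne {k : ℕ} {φ : Fin k ⊕ V → V ⊕ Fin k} (hφ : Function.Injective φ) {i : Fin k} {x : V}
    (h : Orb φ i x) : φ (Sum.inr x) ≠ Sum.inl x := by
  induction h with
  | base x h =>
    intro h'
    have := hφ (h.trans h'.symm)
    simp at this
  | step x y hx h ih =>
    intro h'
    have := hφ (h.trans h'.symm)
    simp only [Sum.inr.injEq] at this
    subst this
    exact ih h

theorem Orb.unique {k : ℕ} {φ : Fin k ⊕ V → V ⊕ Fin k} (hφ : Function.Injective φ)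
    {i j : Fin k} {x : V} (h : Orb φ i x) (h' : Orb φ j x) : i = j := by
  induction h with
  | base x h =>
    cases h' with
    | base _ h' =>
      have := hφ (h.trans h'.symm)
      simpa using this
    | step z _ hz h' =>
      have := hφ (h.trans h'.symm)
      simp at this
  | step z x hz h ih =>
    cases h' with
    | base _ h' =>
      have := hφ (h.trans h'.symm)
      simp at this
    | step z' _ hz' h' =>
      have := hφ (h.trans h'.symm)
      simp only [Sum.inr.injEq] at this
      subst this
      exact ih hz'

theorem fam_of_match (G : SimpleGraph V) {v w : V} (hadj : ¬ G.Adj v w) (d k : ℕ)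
    (q : V → ℤ) (hv : q v = 0) (hw : q w = d) (φ : Fin k ⊕ V → V ⊕ Fin k)
    (hφ : Function.Injective φ) (hmem : ∀ a, φ a ∈ nb G v w q k a) : Fam G v w d k := by
  classical
  obtain ⟨M, hM⟩ : ∃ M : ℤ, ∀ x, q x ≤ M := by
    obtain ⟨M, hM⟩ := (Set.finite_range q).bddAbove
    exact ⟨M, fun x => hM ⟨x, rfl⟩⟩
  -- vertices of orbits are not `w`
  have hw' : ∀ i x, Orb φ i x → x ≠ w := by
    intro i x h
    induction h with
    | base x h =>
      have h1 := hmem (Sum.inl i)
      rw [h] at h1
      simp only [nb, mem_image, mem_filter, mem_univ, true_and, Sum.inl.injEq, exists_eq_right] at h1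
      rintro rfl
      exact hadj h1.1
    | step x y hx h ih =>
      have h1 := hmem (Sum.inr x)
      rw [h] at h1
      have h2 : y ≠ x := by
        rintro rfl
        exact hx.ne hφ h
      simp only [nb, mem_insert, Sum.inl.injEq, h2, false_or, mem_union, mem_image, mem_filter,
        mem_univ, true_and, exists_eq_right] at h1
      rcases h1 with h1 | h1
      · exact h1.1
      · split_ifs at h1 <;> simp at h1
  have key : ∀ N : ℕ, ∀ i x, Orb φ i x → (M - q x).toNat ≤ N →
      ∃ p : G.Walk x w, (p.length : ℤ) ≤ d - q x ∧ ∀ y ∈ p.support, y = w ∨ Orb φ i y := by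
    intro N
    induction N with
    | zero =>
      intro i x hx hN
      have h1 := hmem (Sum.inr x)
      rcases h2 : φ (Sum.inr x) with y | y
      · rw [h2] at h1
        have h3 : y ≠ x := by
          rintro rfl
          exact hx.ne hφ h2
        simp only [nb, mem_insert, Sum.inl.injEq, h3, false_or, mem_union, mem_image, mem_filter,
          mem_univ, true_and, exists_eq_right] at h1
        rcases h1 with h1 | h1
        · have := hM y
          have := h1.2.2
          omega
        · split_ifs at h1 <;> simp at h1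
      · rw [h2] at h1
        simp only [nb, mem_insert, reduceCtorEq, false_or, mem_union, mem_image, mem_filter,
          mem_univ, true_and, and_false, exists_false] at h1
        split_ifs at h1 with h4
        · refine ⟨SimpleGraph.Walk.cons h4.1 SimpleGraph.Walk.nil, ?_, ?_⟩
          · simp only [SimpleGraph.Walk.length_cons, SimpleGraph.Walk.length_nil]
            have := h4.2
            push_cast
            omega
          · intro y hy
            simp only [SimpleGraph.Walk.support_cons, SimpleGraph.Walk.support_nil,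
              List.mem_cons, List.not_mem_nil, or_false] at hy
            rcases hy with rfl | rfl
            · exact Or.inr hx
            · exact Or.inl rfl
        · simp at h1
    | succ N ih =>
      intro i x hx hN
      have h1 := hmem (Sum.inr x)
      rcases h2 : φ (Sum.inr x) with y | y
      · rw [h2] at h1
        have h3 : y ≠ x := by
          rintro rfl
          exact hx.ne hφ h2
        simp only [nb, mem_insert, Sum.inl.injEq, h3, false_or, mem_union, mem_image, mem_filter,
          mem_univ, true_and, exists_eq_right] at h1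
        rcases h1 with h1 | h1
        · obtain ⟨p, hp1, hp2⟩ := ih i y (Orb.step x y hx h2) (by
            have := hM y
            have := h1.2.2
            omega)
          refine ⟨SimpleGraph.Walk.cons h1.2.1 p, ?_, ?_⟩
          · simp only [SimpleGraph.Walk.length_cons]
            have := h1.2.2
            push_cast
            omega
          · intro z hz
            simp only [SimpleGraph.Walk.support_cons, List.mem_cons] at hz
            rcases hz with rfl | hz
            · exact Or.inr hx
            · exact hp2 z hz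
        · split_ifs at h1 <;> simp at h1
      · rw [h2] at h1
        simp only [nb, mem_insert, reduceCtorEq, false_or, mem_union, mem_image, mem_filter,
          mem_univ, true_and, and_false, exists_false] at h1
        split_ifs at h1 with h4
        · refine ⟨SimpleGraph.Walk.cons h4.1 SimpleGraph.Walk.nil, ?_, ?_⟩
          · simp only [SimpleGraph.Walk.length_cons, SimpleGraph.Walk.length_nil]
            have := h4.2
            push_cast
            omega
          · intro y hy
            simp only [SimpleGraph.Walk.support_cons, SimpleGraph.Walk.support_nil,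
              List.mem_cons, List.not_mem_nil, or_false] at hy
            rcases hy with rfl | rfl
            · exact Or.inr hx
            · exact Or.inl rfl
        · simp at h1
  have key2 : ∀ i : Fin k, ∃ p : G.Walk v w, p.length ≤ d ∧
      ∀ y ∈ p.support, y = v ∨ y = w ∨ Orb φ i y := by
    intro i
    have h1 := hmem (Sum.inl i)
    rcases h2 : φ (Sum.inl i) with x | x
    · rw [h2] at h1
      simp only [nb, mem_image, mem_filter, mem_univ, true_and, Sum.inl.injEq,
        exists_eq_right] at h1
      obtain ⟨p, hp1, hp2⟩ := key _ i x (Orb.base x h2) le_rfl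
      refine ⟨SimpleGraph.Walk.cons h1.1 p, ?_, ?_⟩
      · simp only [SimpleGraph.Walk.length_cons]
        have := h1.2
        omega
      · intro z hz
        simp only [SimpleGraph.Walk.support_cons, List.mem_cons] at hz
        rcases hz with rfl | hz
        · exact Or.inl rfl
        · exact Or.inr (hp2 z hz)
    · rw [h2] at h1
      simp [nb] at h1
  choose p hp1 hp2 using key2
  refine ⟨fun i => (p i).bypass, fun i => ⟨(p i).bypass_isPath,
    ((p i).length_bypass_le).trans (hp1 i)⟩, ?_⟩
  intro i j hij x hxi hxj
  have h1 := hp2 i x ((p i).support_bypass_subset hxi)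
  have h2 := hp2 j x ((p j).support_bypass_subset hxj)
  rcases h1 with h1 | h1 | h1
  · exact Or.inl h1
  · exact Or.inr h1
  · rcases h2 with h2 | h2 | h2
    · exact Or.inl h2
    · exact Or.inr h2
    · exact absurd (h1.unique hφ h2) hij

/-- **Cut lemma.** -/
theorem cut (G : SimpleGraph V) {v w : V} (hvw : v ≠ w) (hadj : ¬ G.Adj v w) (d m : ℕ)
    (hno : ¬ Fam G v w d (m + 1)) (q : V → ℤ) (hv : q v = 0) (hw : q w = d) :
    ∃ A C : Finset V, v ∈ A ∧ w ∉ A ∧ v ∉ C ∧ w ∉ C ∧ Disjoint A C ∧ C.card ≤ m ∧
      ∀ x ∈ A, ∀ y, G.Adj x y → q x + 1 ≤ q y → y ∈ A ∨ y ∈ C := by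
  classical
  by_contra hcon
  apply hno
  have hall := (Finset.all_card_le_biUnion_card_iff_exists_injective (nb G v w q (m + 1))).1 ?_
  · obtain ⟨φ, hφ, hmem⟩ := hall
    exact fam_of_match G hadj d (m + 1) q hv hw φ hφ hmem
  intro X
  by_contra hX
  rw [not_le] at hX
  apply hcon
  -- the violating set
  let Y : Finset V := univ.filter fun x => Sum.inr x ∈ X
  let S : Finset (Fin (m + 1)) := univ.filter fun i => Sum.inl i ∈ X
  have hXc : X.card = S.card + Y.card := by
    have h1 : X = S.image Sum.inl ∪ Y.image Sum.inr := by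
      ext a
      rcases a with a | a <;> simp [S, Y]
    have h2 : Disjoint (S.image (Sum.inl : Fin (m+1) → Fin (m + 1) ⊕ V))
        (Y.image (Sum.inr : V → Fin (m + 1) ⊕ V)) := by
      rw [Finset.disjoint_left]
      intro a ha hb
      simp only [mem_image] at ha hb
      obtain ⟨i, _, rfl⟩ := ha
      obtain ⟨j, _, h⟩ := hb
      simp at h
    conv_lhs => rw [h1]
    rw [card_union_of_disjoint h2, card_image_of_injective _ Sum.inl_injective,
      card_image_of_injective _ Sum.inr_injective]
  have hYsub : Y.image (Sum.inl : V → V ⊕ Fin (m + 1)) ⊆ X.biUnion (nb G v w q (m + 1)) := by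
    intro a ha
    rw [mem_image] at ha
    obtain ⟨x, hx, rfl⟩ := ha
    rw [mem_biUnion]
    refine ⟨Sum.inr x, (mem_filter.1 hx).2, ?_⟩
    simp [nb]
  have hSne : S.Nonempty := by
    by_contra hS
    rw [not_nonempty_iff_eq_empty] at hS
    have h1 := card_le_card hYsub
    rw [card_image_of_injective _ Sum.inl_injective] at h1
    rw [hXc, hS, card_empty, zero_add] at hX
    omega
  obtain ⟨i0, hi0⟩ := hSne
  have hScard : S.card ≤ m + 1 := by
    have := card_le_univ S
    simpa using this
  -- no vertex of Y is joined to w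
  have hYw : ∀ x ∈ Y, ¬ (G.Adj x w ∧ q x + 1 ≤ q w) := by
    intro x hx hxw
    have h1 : Y.image (Sum.inl : V → V ⊕ Fin (m + 1)) ∪ univ.image (Sum.inr : Fin (m+1) → _) ⊆
        X.biUnion (nb G v w q (m + 1)) := by
      refine union_subset hYsub ?_
      intro a ha
      rw [mem_biUnion]
      refine ⟨Sum.inr x, (mem_filter.1 hx).2, ?_⟩
      simp only [nb, if_pos hxw, mem_insert, mem_union]
      exact Or.inr (Or.inr ha)
    have h2 := card_le_card h1
    have h3 : Disjoint (Y.image (Sum.inl : V → V ⊕ Fin (m + 1)))
        (univ.image (Sum.inr : Fin (m+1) → V ⊕ Fin (m + 1))) := by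
      rw [Finset.disjoint_left]
      intro a ha hb
      simp only [mem_image] at ha hb
      obtain ⟨i, _, rfl⟩ := ha
      obtain ⟨j, _, h⟩ := hb
      simp at h
    rw [card_union_of_disjoint h3, card_image_of_injective _ Sum.inl_injective,
      card_image_of_injective _ Sum.inr_injective, card_univ, Fintype.card_fin] at h2
    omega
  let Z : Finset V := univ.filter fun y => Sum.inl y ∈ X.biUnion (nb G v w q (m + 1))
  have hZcard : Z.card ≤ (X.biUnion (nb G v w q (m + 1))).card := by
    have h1 : Z.image (Sum.inl : V → V ⊕ Fin (m + 1)) ⊆ X.biUnion (nb G v w q (m + 1)) := by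
      intro a ha
      rw [mem_image] at ha
      obtain ⟨x, hx, rfl⟩ := ha
      exact (mem_filter.1 hx).2
    have h2 := card_le_card h1
    rwa [card_image_of_injective _ Sum.inl_injective] at h2
  have hYZ : Y ⊆ Z := by
    intro x hx
    refine mem_filter.2 ⟨mem_univ _, hYsub (mem_image_of_mem _ hx)⟩
  have hnbv : ∀ y, G.Adj v y → q v + 1 ≤ q y → y ∈ Z := by
    intro y hy1 hy2
    refine mem_filter.2 ⟨mem_univ _, ?_⟩
    rw [mem_biUnion]
    refine ⟨Sum.inl i0, (mem_filter.1 hi0).2, ?_⟩
    simp only [nb, mem_image, mem_filter, mem_univ, true_and]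
    exact ⟨y, ⟨hy1, hy2⟩, rfl⟩
  have hnbY : ∀ x ∈ Y, ∀ y, G.Adj x y → q x + 1 ≤ q y → y ∈ Z := by
    intro x hx y hy1 hy2
    have hyw : y ≠ w := by
      rintro rfl
      exact hYw x hx ⟨hy1, hy2⟩
    refine mem_filter.2 ⟨mem_univ _, ?_⟩
    rw [mem_biUnion]
    refine ⟨Sum.inr x, (mem_filter.1 hx).2, ?_⟩
    simp only [nb, mem_insert, mem_union, mem_image, mem_filter, mem_univ, true_and]
    exact Or.inr (Or.inl ⟨y, ⟨hyw, hy1, hy2⟩, rfl⟩)
  -- the sets
  let Y' : Finset V := Y.erase w
  let Z' : Finset V := Z \ Y
  refine ⟨insert v Y', (Z' \ {v, w}), mem_insert_self _ _, ?_, by simp, by simp, ?_, ?_, ?_⟩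
  · rw [mem_insert, not_or]
    exact ⟨fun h => hvw h.symm, notMem_erase _ _⟩
  · rw [Finset.disjoint_left]
    intro a ha hb
    simp only [Z', mem_sdiff, mem_insert, mem_singleton, not_or] at hb
    rw [mem_insert] at ha
    rcases ha with rfl | ha
    · exact hb.2.1 rfl
    · exact hb.1.2 (mem_of_mem_erase ha)
  · have h1 : (Z' \ {v, w}).card ≤ Z'.card := card_le_card sdiff_subset
    have h2 : Z'.card = Z.card - Y.card := card_sdiff_of_subset hYZ
    omega
  · intro x hx y hxy hq
    have hyZ : y ∈ Z := by
      rw [mem_insert] at hx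
      rcases hx with rfl | hx
      · exact hnbv y hxy hq
      · exact hnbY x (mem_of_mem_erase hx) y hxy hq
    have hyw : y ≠ w := by
      rintro rfl
      rw [mem_insert] at hx
      rcases hx with rfl | hx
      · exact hadj hxy
      · exact hYw x (mem_of_mem_erase hx) ⟨hxy, hq⟩
    by_cases hyv : y = v
    · exact Or.inl (by rw [hyv]; exact mem_insert_self _ _)
    by_cases hyY : y ∈ Y
    · exact Or.inl (mem_insert_of_mem (mem_erase.2 ⟨hyw, hyY⟩))
    · right
      simp only [Z', mem_sdiff, mem_insert, mem_singleton, not_or]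
      exact ⟨⟨hyZ, hyY⟩, hyv, hyw⟩

end Pool.Agent.H86.Chung
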