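import Mathlib
import Pool.Agent.H58.Kuhn
import Pool.Agent.H86.Chung.Cut

/-!
The fractional structure: a Brouwer fixed point of averaged cuts.
-/

set_option autoImplicit false

open Finset MeasureTheory

namespace Pool.Agent.H86.Chung

variable {n : ℕ}

/-- rounded potential with shift `r` -/
noncomputable def rp (v w : Fin n) (d : ℕ) (z : Fin n → ℝ) (r : ℝ) : Fin n → ℤ :=
  fun x => if x = v then 0 else if x = w then (d : ℤ) else ⌊(d : ℝ) * z x + r⌋

/-- average over the shift -/
noncomputable def av (v w : Fin n) (d : ℕ) (F : (Fin n → ℤ) → ℝ) (z : Fin n → ℝ) : ℝ :=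
  ∫ r in Set.Ico (0 : ℝ) 1, F (rp v w d z r)

theorem measurable_rp (v w : Fin n) (d : ℕ) (z : Fin n → ℝ) :
    Measurable (fun r => rp v w d z r) := by
  rw [measurable_pi_iff]
  intro x
  unfold rp
  by_cases h1 : x = v
  · simp only [h1, if_true]; exact measurable_const
  · by_cases h2 : x = w
    · simp only [h1, h2, if_false, if_true]
      split_ifs <;> exact measurable_const
    · simp only [h1, h2, if_false]
      exact Int.measurable_floor.comp (measurable_const.add measurable_id)

theorem measurable_F (v w : Fin n) (d : ℕ) (F : (Fin n → ℤ) → ℝ) (z : Fin n → ℝ) :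
    Measurable (fun r => F (rp v w d z r)) :=
  (measurable_of_countable F).comp (measurable_rp v w d z)

theorem integrable_F (v w : Fin n) (d : ℕ) (F : (Fin n → ℤ) → ℝ) (B : ℝ) (hF : ∀ q, |F q| ≤ B)
    (z : Fin n → ℝ) :
    Integrable (fun r => F (rp v w d z r)) (volume.restrict (Set.Ico (0 : ℝ) 1)) := by
  refine Integrable.of_bound (C := B) (measurable_F v w d F z).aestronglyMeasurable ?_
  exact Filter.Eventually.of_forall fun r => by rw [Real.norm_eq_abs]; exact hF _

theorem continuous_av (v w : Fin n) (d : ℕ) (F : (Fin n → ℤ) → ℝ) (B : ℝ) (hF : ∀ q, |F q| ≤ B) :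
    Continuous (av v w d F) := by
  rw [continuous_iff_continuousAt]
  intro z0
  unfold av
  refine continuousAt_of_dominated (bound := fun _ => B) ?_ ?_ ?_ ?_
  · exact Filter.Eventually.of_forall fun z => (measurable_F v w d F z).aestronglyMeasurable
  · exact Filter.Eventually.of_forall fun z => Filter.Eventually.of_forall fun r => by
      rw [Real.norm_eq_abs]; exact hF _
  · exact integrable_const _
  · have hcount : (⋃ x : Fin n, ⋃ k : ℤ, {(k : ℝ) - (d : ℝ) * z0 x} : Set ℝ).Countable := by
      refine Set.countable_iUnion fun x => Set.countable_iUnion fun k => Set.countable_singleton _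
    have hae := hcount.ae_notMem (volume.restrict (Set.Ico (0 : ℝ) 1))
    filter_upwards [hae] with r hr
    have hr' : ∀ x : Fin n, ∀ k : ℤ, (d : ℝ) * z0 x + r ≠ k := by
      intro x k h
      apply hr
      simp only [Set.mem_iUnion, Set.mem_singleton_iff]
      exact ⟨x, k, by linarith⟩
    have hev : ∀ᶠ z in nhds z0, rp v w d z r = rp v w d z0 r := by
      have h1 : ∀ x : Fin n, ∀ᶠ z in nhds z0, ⌊(d : ℝ) * z x + r⌋ = ⌊(d : ℝ) * z0 x + r⌋ := by
        intro x
        have hc : ContinuousAt (fun z : Fin n → ℝ => (d : ℝ) * z x + r) z0 :=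
          ((continuous_const.mul (continuous_apply x)).add continuous_const).continuousAt
        have hlt : (⌊(d : ℝ) * z0 x + r⌋ : ℝ) < (d : ℝ) * z0 x + r :=
          lt_of_le_of_ne (Int.floor_le _) (fun h => hr' x _ h.symm)
        have hmem : Set.Ioo (⌊(d : ℝ) * z0 x + r⌋ : ℝ) (⌊(d : ℝ) * z0 x + r⌋ + 1) ∈
            nhds ((d : ℝ) * z0 x + r) := Ioo_mem_nhds hlt (Int.lt_floor_add_one _)
        filter_upwards [hc hmem] with z hz
        rw [Int.floor_eq_iff]
        exact ⟨hz.1.le, hz.2⟩
      filter_upwards [Filter.eventually_all.2 h1] with z hz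
      funext x
      unfold rp
      rw [hz x]
    refine ContinuousAt.congr (f := fun _ => F (rp v w d z0 r)) continuousAt_const ?_
    filter_upwards [hev] with z hz
    rw [hz]

theorem av_mono (v w : Fin n) (d : ℕ) (F G : (Fin n → ℤ) → ℝ) (B : ℝ) (hF : ∀ q, |F q| ≤ B)
    (hG : ∀ q, |G q| ≤ B) (z : Fin n → ℝ)
    (h : ∀ r ∈ Set.Ico (0 : ℝ) 1, F (rp v w d z r) ≤ G (rp v w d z r)) :
    av v w d F z ≤ av v w d G z := by
  unfold av
  exact setIntegral_mono_on (integrable_F v w d F B hF z) (integrable_F v w d G B hG z)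
    measurableSet_Ico h

theorem av_const (v w : Fin n) (d : ℕ) (F : (Fin n → ℤ) → ℝ) (c : ℝ) (z : Fin n → ℝ)
    (h : ∀ r ∈ Set.Ico (0 : ℝ) 1, F (rp v w d z r) = c) : av v w d F z = c := by
  unfold av
  rw [setIntegral_congr_fun measurableSet_Ico h]
  simp

theorem rp_v (v w : Fin n) (d : ℕ) (z : Fin n → ℝ) (r : ℝ) : rp v w d z r v = 0 := by
  simp [rp]

theorem rp_w {v w : Fin n} (hvw : v ≠ w) (d : ℕ) (z : Fin n → ℝ) (r : ℝ) :
    rp v w d z r w = d := by
  simp [rp, hvw.symm]

/-- **Fractional structure.** -/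
theorem frac (G : SimpleGraph (Fin n)) {v w : Fin n} (hvw : v ≠ w) (hadj : ¬ G.Adj v w)
    (d m : ℕ) (hno : ¬ Fam G v w d (m + 1)) :
    ∃ p u : Fin n → ℝ, p v = 0 ∧ p w = d ∧ u v = 0 ∧ u w = 0 ∧ (∀ x, 0 ≤ u x) ∧
      ∑ x, u x ≤ d * m ∧
      ∀ x y, G.Adj x y → p y - p x < 1 ∨ p y - p x ≤ (u x + u y) / 2 := by
  classical
  have hex : ∀ q : Fin n → ℤ, ∃ AC : Finset (Fin n) × Finset (Fin n), q v = 0 → q w = d →
      (v ∈ AC.1 ∧ w ∉ AC.1 ∧ v ∉ AC.2 ∧ w ∉ AC.2 ∧ Disjoint AC.1 AC.2 ∧ AC.2.card ≤ m ∧
      ∀ x ∈ AC.1, ∀ y, G.Adj x y → q x + 1 ≤ q y → y ∈ AC.1 ∨ y ∈ AC.2) := by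
    intro q
    by_cases hv : q v = 0
    · by_cases hw : q w = d
      · obtain ⟨A, C, h⟩ := cut G hvw hadj d m hno q hv hw
        exact ⟨(A, C), fun _ _ => h⟩
      · exact ⟨(∅, ∅), fun _ h => absurd h hw⟩
    · exact ⟨(∅, ∅), fun h => absurd h hv⟩
  choose AC hAC using hex
  let lam : Fin n → (Fin n → ℤ) → ℝ := fun x q =>
    if x ∈ (AC q).1 ∨ x ∈ (AC q).2 then 0 else 1
  let c : Fin n → (Fin n → ℤ) → ℝ := fun x q => if x ∈ (AC q).2 then 1 else 0
  have hlam : ∀ x q, 0 ≤ lam x q ∧ lam x q ≤ 1 := by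
    intro x q; simp only [lam]; split_ifs <;> norm_num
  have hc : ∀ x q, 0 ≤ c x q ∧ c x q ≤ 1 := by
    intro x q; simp only [c]; split_ifs <;> norm_num
  have hlc : ∀ x q, lam x q + c x q ≤ 1 := by
    intro x q; simp only [lam, c]
    by_cases h : x ∈ (AC q).2
    · simp [h]
    · simp only [h, or_false, if_false]; split_ifs <;> norm_num
  have hlamB : ∀ x q, |lam x q| ≤ 2 := fun x q => by
    rw [abs_le]; constructor <;> linarith [hlam x q]
  have hcB : ∀ x q, |c x q| ≤ 2 := fun x q => by
    rw [abs_le]; constructor <;> linarith [hc x q]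
  let g : Fin n → (Fin n → ℤ) → ℝ := fun x q => lam x q + c x q / 2
  have hgB : ∀ x q, |g x q| ≤ 2 := fun x q => by
    simp only [g]
    rw [abs_le]; constructor <;> linarith [hlam x q, hc x q, (hlam x q).1, (hc x q).1, (hlam x q).2, (hc x q).2]
  let T : (Fin n → ℝ) → (Fin n → ℝ) := fun z x => av v w d (g x) z
  have hTc : Continuous T := continuous_pi fun x => continuous_av v w d (g x) 2 (hgB x)
  have hTm : Set.MapsTo T (Set.Icc 0 1) (Set.Icc 0 1) := by
    intro z _
    constructor
    · intro x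
      have h1 : av v w d (fun _ => (0 : ℝ)) z ≤ av v w d (g x) z :=
        av_mono v w d _ _ 2 (by intro q; norm_num) (hgB x) z
          (fun r _ => by simp only [g]; linarith [(hlam x (rp v w d z r)).1, (hc x (rp v w d z r)).1])
      rw [av_const v w d (fun _ => (0 : ℝ)) 0 z (fun _ _ => rfl)] at h1
      exact h1
    · intro x
      have h1 : av v w d (g x) z ≤ av v w d (fun _ => (1 : ℝ)) z :=
        av_mono v w d _ _ 2 (hgB x) (by intro q; norm_num) z
          (fun r _ => by simp only [g]; linarith [hlc x (rp v w d z r), (hc x (rp v w d z r)).1])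
      rw [av_const v w d (fun _ => (1 : ℝ)) 1 z (fun _ _ => rfl)] at h1
      exact h1
  obtain ⟨z, hz, hfix⟩ := Pool.Agent.H58.Kuhn.brouwer_cube T hTc.continuousOn hTm
  have hfixx : ∀ x, z x = av v w d (lam x) z + av v w d (c x) z / 2 := by
    intro x
    have h1 : z x = av v w d (g x) z := (congrFun hfix x).symm
    rw [h1]
    unfold av
    simp only [g]
    rw [integral_add (integrable_F v w d (lam x) 2 (hlamB x) z)
      ((integrable_F v w d (c x) 2 (hcB x) z).div_const 2), integral_div]
  have hAC' : ∀ r, _ := fun r => hAC (rp v w d z r) (rp_v v w d z r) (rp_w hvw d z r)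
  have hzv : z v = 0 := by
    rw [hfixx v, av_const v w d (lam v) 0 z, av_const v w d (c v) 0 z]
    · norm_num
    · intro r _; simp only [c, if_neg (hAC' r).2.2.1]
    · intro r _; simp only [lam, if_pos (Or.inl (hAC' r).1)]
  have hcv : av v w d (c v) z = 0 :=
    av_const v w d (c v) 0 z (by intro r _; simp only [c, if_neg (hAC' r).2.2.1])
  have hcw : av v w d (c w) z = 0 :=
    av_const v w d (c w) 0 z (by intro r _; simp only [c, if_neg (hAC' r).2.2.2.1])
  have hzw : z w = 1 := by
    rw [hfixx w, av_const v w d (lam w) 1 z, hcw]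
    · norm_num
    · intro r _
      simp only [lam]
      rw [if_neg]
      rintro (h | h)
      · exact (hAC' r).2.1 h
      · exact (hAC' r).2.2.2.1 h
  have hrp : ∀ r ∈ Set.Ico (0 : ℝ) 1, ∀ x, rp v w d z r x = ⌊(d : ℝ) * z x + r⌋ := by
    intro r hr x
    unfold rp
    by_cases h1 : x = v
    · rw [if_pos h1, h1, hzv, mul_zero, zero_add]
      symm
      rw [Int.floor_eq_iff]
      exact ⟨by simpa using hr.1, by simpa using hr.2⟩
    · rw [if_neg h1]
      by_cases h2 : x = w
      · rw [if_pos h2, h2, hzw, mul_one]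
        symm
        rw [Int.floor_eq_iff]
        push_cast
        exact ⟨by linarith [hr.1], by linarith [hr.2]⟩
      · rw [if_neg h2]
  refine ⟨fun x => d * z x, fun x => d * av v w d (c x) z, ?_, ?_, ?_, ?_, ?_, ?_, ?_⟩
  · simp only [hzv, mul_zero]
  · simp only [hzw, mul_one]
  · simp only [hcv, mul_zero]
  · simp only [hcw, mul_zero]
  · intro x
    refine mul_nonneg (Nat.cast_nonneg d) ?_
    have h1 : av v w d (fun _ => (0 : ℝ)) z ≤ av v w d (c x) z :=
      av_mono v w d _ _ 2 (by intro q; norm_num) (hcB x) z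
        (fun r _ => (hc x (rp v w d z r)).1)
    rwa [av_const v w d (fun _ => (0 : ℝ)) 0 z (fun _ _ => rfl)] at h1
  · rw [← mul_sum]
    refine mul_le_mul_of_nonneg_left ?_ (Nat.cast_nonneg d)
    have h1 : ∑ x, av v w d (c x) z = ∫ r in Set.Ico (0 : ℝ) 1, ∑ x, c x (rp v w d z r) := by
      unfold av
      rw [integral_finsetSum]
      intro x _
      exact integrable_F v w d (c x) 2 (hcB x) z
    rw [h1]
    have h2 : ∀ r, ∑ x, c x (rp v w d z r) ≤ (m : ℝ) := by
      intro r
      simp only [c]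
      rw [Finset.sum_ite_mem, Finset.univ_inter, Finset.sum_const, nsmul_eq_mul, mul_one]
      exact_mod_cast (hAC' r).2.2.2.2.2.1
    calc ∫ r in Set.Ico (0 : ℝ) 1, ∑ x, c x (rp v w d z r)
        ≤ ∫ r in Set.Ico (0 : ℝ) 1, (m : ℝ) := by
          refine integral_mono ?_ (integrable_const _) h2
          exact integrable_finsetSum _ fun x _ => integrable_F v w d (c x) 2 (hcB x) z
      _ = m := by simp
  · intro x y hxy
    by_cases h : (d : ℝ) * z y - d * z x < 1
    · exact Or.inl h
    right
    rw [not_lt] at h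
    have h1 : av v w d (lam y) z ≤ av v w d (fun q => lam x q + c x q) z := by
      refine av_mono v w d _ _ 2 (hlamB y) (fun q => ?_) z fun r hr => ?_
      · rw [abs_le]; constructor <;> linarith [hlc x q, (hlam x q).1, (hc x q).1]
      · have hq : rp v w d z r x + 1 ≤ rp v w d z r y := by
          rw [hrp r hr x, hrp r hr y, Int.le_floor]
          push_cast
          have := Int.floor_le ((d : ℝ) * z x + r)
          linarith
        have hcl := (hAC' r).2.2.2.2.2.2 x
        by_cases hx : x ∈ (AC (rp v w d z r)).1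
        · have := hcl hx y hxy hq
          have hy0 : lam y (rp v w d z r) = 0 := by simp only [lam, if_pos this]
          rw [hy0]
          linarith [(hlam x (rp v w d z r)).1, (hc x (rp v w d z r)).1]
        · have hx1 : lam x (rp v w d z r) + c x (rp v w d z r) = 1 := by
            simp only [lam, c, hx, false_or]
            split_ifs <;> norm_num
          rw [hx1]
          exact (hlam y _).2
    have h2 : av v w d (fun q => lam x q + c x q) z =
        av v w d (lam x) z + av v w d (c x) z := by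
      unfold av
      rw [integral_add (integrable_F v w d (lam x) 2 (hlamB x) z)
        (integrable_F v w d (c x) 2 (hcB x) z)]
    rw [h2] at h1
    have h3 := hfixx x
    have h4 := hfixx y
    have h5 : z y - z x ≤ (av v w d (c x) z + av v w d (c y) z) / 2 := by linarith
    have h6 := mul_le_mul_of_nonneg_left h5 (Nat.cast_nonneg (α := ℝ) d)
    linarith

end Pool.Agent.H86.Chung
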