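import Mathlib
import Pool.Agent.H86.Chung.Cut

/-!
The lower bound: a graph with `μ_d = 1` and `κ_d ≥ (d-1)/3`.
-/

set_option autoImplicit false

open Finset

namespace Pool.Agent.H86.Chung

/-- the graph of a pair of time functions -/
def grT {V : Type*} (inn out : V → ℤ) (hτ : ∀ x, inn x ≤ out x) : SimpleGraph V where
  Adj x y := inn y = out x + 1 ∨ inn x = out y + 1
  symm := ⟨fun _ _ h => h.symm⟩
  loopless := ⟨fun x h => by
    have := hτ x
    rcases h with h | h <;> omega⟩

section
variable {V : Type*} [Fintype V] [DecidableEq V] (inn out : V → ℤ) (hτ : ∀ x, inn x ≤ out x)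
  (hτ1 : ∀ x, out x ≤ inn x + 1)

include hτ1 in
omit [Fintype V] in
theorem walk_out {x y : V} (p : (grT inn out hτ).Walk x y) :
    out y ≤ out x + p.length + (p.support.tail.countP fun z => decide (out z = inn z + 1)) := by
  induction p with
  | nil => simp
  | @cons a b c hab p ih =>
    rw [SimpleGraph.Walk.length_cons, SimpleGraph.Walk.support_cons, List.tail_cons]
    have h1 : p.support = b :: p.support.tail := SimpleGraph.Walk.support_eq_cons p
    rw [h1, List.countP_cons]
    have h2 := hτ1 b
    have h3 := hτ b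
    have h4 := hτ a
    have h5 : out b ≤ out a + 1 + (if decide (out b = inn b + 1) = true then 1 else 0) := by
      rcases hab with h | h
      · split_ifs with h6
        · simp only [decide_eq_true_eq] at h6; omega
        · simp only [decide_eq_true_eq] at h6; omega
      · split_ifs <;> omega
    push_cast
    split_ifs at h5 ⊢ <;> push_cast <;> omega

include hτ1 in
theorem no_two {v w : V} (hvw : v ≠ w) {L d : ℕ} (hov : out v = 0) (how : out w = 2 * L)
    (hv : out v = inn v + 1) (hw : out w = inn w + 1)
    (hT : (univ.filter fun x => out x = inn x + 1).card ≤ L + 1) (hL : 2 * d + 2 ≤ 3 * L) :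
    ¬ Fam (grT inn out hτ) v w d (1 + 1) := by
  rintro ⟨f, hf1, hf2⟩
  let S : Fin (1 + 1) → Finset V := fun i =>
    ((f i).support.tail.toFinset.filter fun z => out z = inn z + 1).erase w
  have hcard : ∀ i, 2 * L ≤ d + (S i).card + 1 := by
    intro i
    have h1 := walk_out inn out hτ hτ1 (f i)
    have h2 := (hf1 i).2
    have hnd : (f i).support.tail.Nodup := (hf1 i).1.support_nodup.tail
    have h3 : (f i).support.tail.countP (fun z => decide (out z = inn z + 1)) =
        ((f i).support.tail.toFinset.filter fun z => out z = inn z + 1).card := by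
      rw [List.countP_eq_length_filter, ← List.toFinset_card_of_nodup (hnd.filter _),
        List.toFinset_filter]
      congr 1
      ext z
      simp
    have h4 : ((f i).support.tail.toFinset.filter fun z => out z = inn z + 1).card ≤
        (S i).card + 1 := by
      have := Finset.pred_card_le_card_erase
        (s := ((f i).support.tail.toFinset.filter fun z => out z = inn z + 1)) (a := w)
      simp only [S]
      omega
    rw [hov, how, h3] at h1
    omega
  have hvS : ∀ i, v ∉ S i := by
    intro i h
    simp only [S, mem_erase, mem_filter, List.mem_toFinset] at h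
    have hnd := (hf1 i).1.support_nodup
    rw [SimpleGraph.Walk.support_eq_cons] at hnd
    exact (List.nodup_cons.1 hnd).1 h.2.1
  have hsub : ∀ i, ∀ z ∈ S i, z ∈ (f i).support := by
    intro i z h
    simp only [S, mem_erase, mem_filter, List.mem_toFinset] at h
    exact List.mem_of_mem_tail h.2.1
  have hdis : Disjoint (S 0) (S 1) := by
    rw [Finset.disjoint_left]
    intro z h0 h1
    rcases hf2 0 1 (by decide) z (hsub 0 z h0) (hsub 1 z h1) with h | h
    · exact hvS 0 (h ▸ h0)
    · exact (Finset.ne_of_mem_erase h0) h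
  have hsubT : S 0 ∪ S 1 ⊆ ((univ.filter fun x => out x = inn x + 1).erase v).erase w := by
    intro z hz
    rw [mem_union] at hz
    have key : ∀ i, z ∈ S i → z ∈ ((univ.filter fun x => out x = inn x + 1).erase v).erase w := by
      intro i hi
      refine mem_erase.2 ⟨Finset.ne_of_mem_erase hi, mem_erase.2 ⟨?_, ?_⟩⟩
      · rintro rfl; exact hvS i hi
      · simp only [S, mem_erase, mem_filter, List.mem_toFinset] at hi
        exact mem_filter.2 ⟨mem_univ _, hi.2.2⟩
    rcases hz with h | h
    · exact key 0 h
    · exact key 1 h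
  have h1 := card_le_card hsubT
  rw [card_union_of_disjoint hdis] at h1
  have hvT : v ∈ (univ.filter fun x => out x = inn x + 1) := mem_filter.2 ⟨mem_univ _, hv⟩
  have hwT : w ∈ (univ.filter fun x => out x = inn x + 1).erase v :=
    mem_erase.2 ⟨hvw.symm, mem_filter.2 ⟨mem_univ _, hw⟩⟩
  rw [card_erase_of_mem hwT, card_erase_of_mem hvT] at h1
  have h2 := hcard 0
  have h3 := hcard 1
  omega

theorem exists_walk (L d : ℕ) (hub : ℕ → V) (slow : ℕ → Fin (d + 1) → V)
    (h1 : ∀ i, i ≤ L → inn (hub i) = 2 * i - 1 ∧ out (hub i) = 2 * i)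
    (h2 : ∀ t, t ≤ 2 * L → ∀ c, inn (slow t c) = t ∧ out (slow t c) = t)
    (h3 : ∀ t, t ≤ 2 * L → Function.Injective (slow t))
    (S : Finset V) (hS : S.card ≤ d) (hv : hub 0 ∉ S) :
    ∀ i, i ≤ L → ∃ x, out x = 2 * i ∧ (hub i ∉ S → x = hub i) ∧
      ∃ p : (grT inn out hτ).Walk (hub 0) x,
        p.length ≤ i + ((range (i + 1)).filter fun j => hub j ∈ S).card ∧
        ∀ z ∈ p.support, z ∉ S := by
  have hclone : ∀ t, t ≤ 2 * L → ∃ c, slow t c ∉ S := by
    intro t ht
    by_contra hcon
    push Not at hcon
    have : (univ.image (slow t)) ⊆ S := by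
      intro z hz
      rw [mem_image] at hz
      obtain ⟨c, _, rfl⟩ := hz
      exact hcon c
    have := card_le_card this
    rw [card_image_of_injective _ (h3 t ht), card_univ, Fintype.card_fin] at this
    omega
  intro i
  induction i with
  | zero =>
    intro _
    refine ⟨hub 0, (h1 0 (Nat.zero_le _)).2, fun _ => rfl, SimpleGraph.Walk.nil, by simp, ?_⟩
    intro z hz
    simp only [SimpleGraph.Walk.support_nil, List.mem_singleton] at hz
    rw [hz]; exact hv
  | succ i ih =>
    intro hi
    obtain ⟨x, hx1, _, p, hp1, hp2⟩ := ih (by omega)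
    have hcnt : ((range (i + 1 + 1)).filter fun j => hub j ∈ S).card =
        ((range (i + 1)).filter fun j => hub j ∈ S).card + if hub (i + 1) ∈ S then 1 else 0 := by
      rw [range_add_one, filter_insert]
      split_ifs with h
      · rw [card_insert_of_notMem (by simp)]
      · rfl
    by_cases hS' : hub (i + 1) ∈ S
    · rw [if_pos hS'] at hcnt
      obtain ⟨c, hc⟩ := hclone (2 * i + 1) (by omega)
      obtain ⟨c', hc'⟩ := hclone (2 * i + 2) (by omega)
      have a1 : (grT inn out hτ).Adj x (slow (2 * i + 1) c) := by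
        left
        rw [(h2 (2 * i + 1) (by omega) c).1, hx1]
        push_cast; ring
      have a2 : (grT inn out hτ).Adj (slow (2 * i + 1) c) (slow (2 * i + 2) c') := by
        left
        rw [(h2 (2 * i + 2) (by omega) c').1, (h2 (2 * i + 1) (by omega) c).2]
        push_cast; ring
      refine ⟨slow (2 * i + 2) c', ?_, fun h => absurd hS' h, (p.concat a1).concat a2, ?_, ?_⟩
      · rw [(h2 (2 * i + 2) (by omega) c').2]; push_cast; ring
      · rw [SimpleGraph.Walk.length_concat, SimpleGraph.Walk.length_concat]
        omega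
      · intro z hz
        rw [SimpleGraph.Walk.support_concat, SimpleGraph.Walk.support_concat] at hz
        simp only [List.concat_eq_append, List.mem_append, List.mem_singleton] at hz
        rcases hz with (hz | hz) | hz
        · exact hp2 z hz
        · rw [hz]; exact hc
        · rw [hz]; exact hc'
    · rw [if_neg hS'] at hcnt
      have a1 : (grT inn out hτ).Adj x (hub (i + 1)) := by
        left
        rw [(h1 (i + 1) hi).1, hx1]
        push_cast; ring
      refine ⟨hub (i + 1), by rw [(h1 (i + 1) hi).2], fun _ => rfl, p.concat a1, ?_, ?_⟩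
      · rw [SimpleGraph.Walk.length_concat]
        omega
      · intro z hz
        rw [SimpleGraph.Walk.support_concat] at hz
        simp only [List.concat_eq_append, List.mem_append, List.mem_singleton] at hz
        rcases hz with hz | hz
        · exact hp2 z hz
        · rw [hz]; exact hS'

end

theorem lower (d : ℕ) (hd : 2 ≤ d) :
    ∃ (n : ℕ) (G : SimpleGraph (Fin n)) (v w : Fin n),
      v ≠ w ∧ ¬ G.Adj v w ∧ Fam G v w d 1 ∧ ¬ Fam G v w d (1 + 1) ∧
      ∀ S : Finset (Fin n), v ∉ S → w ∉ S →
        (∀ p : G.Walk v w, p.IsPath → p.length ≤ d → ∃ x ∈ S, x ∈ p.support) →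
        ((d : ℝ) / 3 - 1) ≤ (S.card : ℝ) := by
  classical
  obtain ⟨L, hL1, hL2, hL3, hLd⟩ : ∃ L, 2 * d + 2 ≤ 3 * L ∧ 3 * L ≤ 2 * d + 4 ∧ 2 ≤ L ∧ L ≤ d :=
    ⟨(2 * d + 4) / 3, by omega, by omega, by omega, by omega⟩
  let W := Fin (L + 1) ⊕ (Fin (2 * L + 1) × Fin (d + 1))
  let e : W ≃ Fin (Fintype.card W) := Fintype.equivFin W
  let innW : W → ℤ := Sum.elim (fun i => 2 * (i : ℕ) - 1) (fun t => ((t.1 : ℕ) : ℤ))
  let outW : W → ℤ := Sum.elim (fun i => 2 * (i : ℕ)) (fun t => ((t.1 : ℕ) : ℤ))
  let inn : Fin (Fintype.card W) → ℤ := fun x => innW (e.symm x)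
  let out : Fin (Fintype.card W) → ℤ := fun x => outW (e.symm x)
  have hτ : ∀ x, inn x ≤ out x := by
    intro x
    simp only [inn, out, innW, outW]
    rcases e.symm x with a | a <;> simp
  have hτ1 : ∀ x, out x ≤ inn x + 1 := by
    intro x
    simp only [inn, out, innW, outW]
    rcases e.symm x with a | a <;> simp
  let hub : ℕ → Fin (Fintype.card W) := fun i => e (Sum.inl ⟨min i L, by omega⟩)
  let slow : ℕ → Fin (d + 1) → Fin (Fintype.card W) := fun t c =>
    e (Sum.inr (⟨min t (2 * L), by omega⟩, c))
  have h1 : ∀ i, i ≤ L → inn (hub i) = 2 * i - 1 ∧ out (hub i) = 2 * i := by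
    intro i hi
    simp [inn, out, hub, innW, outW, hi]
  have h2 : ∀ t, t ≤ 2 * L → ∀ c, inn (slow t c) = t ∧ out (slow t c) = t := by
    intro t ht c
    simp [inn, out, slow, innW, outW, ht]
  have h3 : ∀ t, t ≤ 2 * L → Function.Injective (slow t) := by
    intro t _ c c' h
    have := e.injective h
    exact (Prod.ext_iff.1 (Sum.inr.inj this)).2
  have hT : (univ.filter fun x => out x = inn x + 1).card ≤ L + 1 := by
    have hsub : (univ.filter fun x => out x = inn x + 1) ⊆
        (univ : Finset (Fin (L + 1))).image (fun i => e (Sum.inl i)) := by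
      intro x hx
      rw [mem_filter] at hx
      rw [mem_image]
      have hx2 := hx.2
      simp only [inn, out, innW, outW] at hx2
      rcases hex : e.symm x with a | a
      · exact ⟨a, mem_univ _, by rw [← hex, Equiv.apply_symm_apply]⟩
      · rw [hex] at hx2
        simp at hx2
    refine (card_le_card hsub).trans ?_
    refine card_image_le.trans ?_
    simp
  have o0 : out (hub 0) = 0 := by rw [(h1 0 (Nat.zero_le _)).2]; simp
  have oL : out (hub L) = 2 * L := (h1 L le_rfl).2
  have hvw : hub 0 ≠ hub L := by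
    intro h
    have := congrArg out h
    rw [o0, oL] at this
    omega
  have i0 := (h1 0 (Nat.zero_le _)).1
  have iL := (h1 L le_rfl).1
  have hLR : (L : ℝ) ≥ 0 := Nat.cast_nonneg L
  -- walks avoiding a small set
  have hwalk : ∀ S : Finset (Fin (Fintype.card W)), S.card + L ≤ d → hub 0 ∉ S → hub L ∉ S →
      ∃ p : (grT inn out hτ).Walk (hub 0) (hub L), p.IsPath ∧ p.length ≤ d ∧
        ∀ z ∈ p.support, z ∉ S := by
    intro S hS hv hw
    obtain ⟨x, _, hx, p, hp1, hp2⟩ := exists_walk inn out hτ L d hub slow h1 h2 h3 S (by omega) hv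
      L le_rfl
    obtain rfl := hx hw
    refine ⟨p.bypass, p.bypass_isPath, ?_, ?_⟩
    · have hcnt : ((range (L + 1)).filter fun j => hub j ∈ S).card ≤ S.card := by
        refine card_le_card_of_injOn hub ?_ ?_
        · intro j hj
          exact (mem_filter.1 hj).2
        · intro j hj j' hj' h
          have hj1 := mem_range.1 (mem_filter.1 hj).1
          have hj2 := mem_range.1 (mem_filter.1 hj').1
          have := congrArg out h
          rw [(h1 j (by omega)).2, (h1 j' (by omega)).2] at this
          omega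
      have := p.length_bypass_le_length
      omega
    · intro z hz
      exact hp2 z (p.support_bypass_subset_support hz)
  refine ⟨Fintype.card W, grT inn out hτ, hub 0, hub L, hvw, ?_, ?_, ?_, ?_⟩
  · intro h
    rcases h with h | h
    · rw [iL, o0] at h; omega
    · rw [i0, oL] at h; omega
  · obtain ⟨p, hp1, hp2, _⟩ := hwalk ∅ (by simpa using hLd) (by simp) (by simp)
    refine ⟨fun _ => p, fun _ => ⟨hp1, hp2⟩, ?_⟩
    intro i j hij
    exact absurd (Subsingleton.elim i j) hij
  · refine no_two inn out hτ hτ1 hvw o0 oL ?_ ?_ hT hL1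
    · rw [o0, i0]; simp
    · rw [oL, iL]; ring
  · intro S hv hw hS
    by_contra hcon
    rw [not_le] at hcon
    have hSL : S.card + L ≤ d := by
      have h4 : (3 * S.card : ℝ) < d - 3 := by linarith
      have h5 : 3 * S.card + 3 < d := by
        have : (3 * S.card + 3 : ℝ) < d := by linarith
        exact_mod_cast this
      omega
    obtain ⟨p, hp1, hp2, hp3⟩ := hwalk S hSL hv hw
    obtain ⟨x, hx1, hx2⟩ := hS p hp1 hp2
    exact hp3 x hx2 hx1

end Pool.Agent.H86.Chung
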