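import Mathlib

/-!
Rounding of the fractional structure: the three deletion schemes.
-/

set_option autoImplicit false

open Finset MeasureTheory

namespace Pool.Agent.H86.Chung

/-- distance to the ends of the unit interval -/
noncomputable def dl (s : ℝ) : ℝ := min s (1 - s)

/-- indicator that the distance of `P - θ` to the integers is at most `c` -/
noncomputable def ind (c P θ : ℝ) : ℝ := if dl (Int.fract (P - θ)) ≤ c then 1 else 0

theorem measurable_dl : Measurable dl := by
  unfold dl
  exact measurable_id.min (measurable_const.sub measurable_id)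

theorem measurable_ind (c P : ℝ) : Measurable (ind c P) := by
  unfold ind
  refine Measurable.ite ?_ measurable_const measurable_const
  exact measurableSet_le (measurable_dl.comp (measurable_fract.comp
    (measurable_const.sub measurable_id))) measurable_const

theorem ind_nonneg (c P θ : ℝ) : 0 ≤ ind c P θ := by
  unfold ind; split_ifs <;> norm_num

theorem ind_le_one (c P θ : ℝ) : ind c P θ ≤ 1 := by
  unfold ind; split_ifs <;> norm_num

theorem integrable_ind (c P : ℝ) (s : Set ℝ) (hs : volume s ≠ ⊤) :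
    IntegrableOn (ind c P) s volume := by
  have : IsFiniteMeasure (volume.restrict s) := ⟨by
    rw [Measure.restrict_apply_univ]; exact lt_top_iff_ne_top.2 hs⟩
  refine Integrable.of_bound (C := 1) (measurable_ind c P).aestronglyMeasurable ?_
  exact Filter.Eventually.of_forall fun r => by
    rw [Real.norm_eq_abs, abs_le]
    constructor <;> linarith [ind_nonneg c P r, ind_le_one c P r]

theorem int_ind_one (c P : ℝ) : ∫ θ in Set.Ioo (0 : ℝ) 1, ind c P θ ≤ 1 := by
  calc ∫ θ in Set.Ioo (0 : ℝ) 1, ind c P θ ≤ ∫ θ in Set.Ioo (0 : ℝ) 1, (1 : ℝ) := by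
        refine integral_mono (integrable_ind c P _ (by simp)) (integrable_const _) ?_
        exact fun θ => ind_le_one c P θ
    _ = 1 := by simp

theorem int_ind_neg (c P : ℝ) (hc : c < 0) : ∫ θ in Set.Ioo (0 : ℝ) 1, ind c P θ ≤ 0 := by
  have : ∀ θ, ind c P θ = 0 := by
    intro θ
    unfold ind
    rw [if_neg]
    rw [not_le]
    refine lt_of_lt_of_le hc ?_
    unfold dl
    exact le_min (Int.fract_nonneg _) (by linarith [Int.fract_lt_one (P - θ)])
  simp [this]

theorem int_ind (c P : ℝ) (hc : 0 ≤ c) : ∫ θ in Set.Ioo (0 : ℝ) 1, ind c P θ ≤ 2 * c := by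
  let g : ℝ → ℝ := fun s => if dl s ≤ c then 1 else 0
  have h0 : ∫ θ in Set.Ioo (0 : ℝ) 1, ind c P θ = ∫ θ in (0 : ℝ)..1, g (Int.fract (P - θ)) := by
    rw [intervalIntegral.integral_of_le zero_le_one, integral_Ioc_eq_integral_Ioo]
    rfl
  have h1 : ∫ θ in (0 : ℝ)..1, g (Int.fract (P - θ)) =
      ∫ x in (P - 1)..(P - 0), g (Int.fract x) :=
    intervalIntegral.integral_comp_sub_left (fun x => g (Int.fract x)) P
  have hper : Function.Periodic (fun x : ℝ => g (Int.fract x)) 1 := by
    intro x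
    simp only [Int.fract_add_one]
  have h2 : ∫ x in (P - 1)..(P - 0), g (Int.fract x) = ∫ x in (0 : ℝ)..(0 + 1), g (Int.fract x) := by
    rw [← hper.intervalIntegral_add_eq (P - 1) 0]
    congr 1
    ring
  have h3 : ∫ x in (0 : ℝ)..(0 + 1), g (Int.fract x) = ∫ x in Set.Ioo (0 : ℝ) 1, g x := by
    rw [zero_add, intervalIntegral.integral_of_le zero_le_one, integral_Ioc_eq_integral_Ioo]
    refine setIntegral_congr_fun measurableSet_Ioo ?_
    intro x hx
    simp only
    rw [Int.fract_eq_self.2 ⟨hx.1.le, hx.2⟩]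
  rw [h0, h1, h2, h3]
  have hgle : ∀ x ∈ Set.Ioo (0 : ℝ) 1, g x ≤
      (Set.Icc (0 : ℝ) c).indicator (fun _ => (1 : ℝ)) x +
      (Set.Icc (1 - c) (1 : ℝ)).indicator (fun _ => (1 : ℝ)) x := by
    intro x hx
    have n1 : 0 ≤ (Set.Icc (0 : ℝ) c).indicator (fun _ => (1 : ℝ)) x :=
      Set.indicator_nonneg (fun _ _ => zero_le_one) _
    have n2 : 0 ≤ (Set.Icc (1 - c) (1 : ℝ)).indicator (fun _ => (1 : ℝ)) x :=
      Set.indicator_nonneg (fun _ _ => zero_le_one) _
    simp only [g]
    split_ifs with h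
    · unfold dl at h
      rcases min_le_iff.1 h with h | h
      · rw [Set.indicator_of_mem (show x ∈ Set.Icc (0 : ℝ) c from ⟨hx.1.le, h⟩)]
        linarith
      · rw [Set.indicator_of_mem (show x ∈ Set.Icc (1 - c) (1 : ℝ) from ⟨by linarith, hx.2.le⟩)]
        linarith
    · linarith
  have hgm : Measurable g := Measurable.ite (measurableSet_le measurable_dl measurable_const)
    measurable_const measurable_const
  have i1 : Integrable ((Set.Icc (0 : ℝ) c).indicator (fun _ => (1 : ℝ))) volume :=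
    (integrable_indicator_iff measurableSet_Icc).2 (by simp)
  have i2 : Integrable ((Set.Icc (1 - c) (1 : ℝ)).indicator (fun _ => (1 : ℝ))) volume :=
    (integrable_indicator_iff measurableSet_Icc).2 (by simp)
  have ig : IntegrableOn g (Set.Ioo 0 1) volume := by
    refine Integrable.of_bound (C := 1) hgm.aestronglyMeasurable ?_
    exact Filter.Eventually.of_forall fun r => by
      simp only [g]
      split_ifs <;> simp
  calc ∫ x in Set.Ioo (0 : ℝ) 1, g x
      ≤ ∫ x in Set.Ioo (0 : ℝ) 1, ((Set.Icc (0 : ℝ) c).indicator (fun _ => (1 : ℝ)) x +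
        (Set.Icc (1 - c) (1 : ℝ)).indicator (fun _ => (1 : ℝ)) x) :=
        setIntegral_mono_on ig (i1.add i2).integrableOn measurableSet_Ioo hgle
    _ ≤ ∫ x, ((Set.Icc (0 : ℝ) c).indicator (fun _ => (1 : ℝ)) x +
        (Set.Icc (1 - c) (1 : ℝ)).indicator (fun _ => (1 : ℝ)) x) := by
        refine setIntegral_le_integral (i1.add i2) ?_
        exact Filter.Eventually.of_forall fun x => add_nonneg
          (Set.indicator_nonneg (fun _ _ => zero_le_one) _)
          (Set.indicator_nonneg (fun _ _ => zero_le_one) _)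
    _ = 2 * c := by
        rw [integral_add i1 i2, integral_indicator measurableSet_Icc,
          integral_indicator measurableSet_Icc]
        simp only [integral_const, smul_eq_mul, mul_one, MeasurableSet.univ,
          measureReal_restrict_apply, Set.univ_inter, Real.volume_real_Icc]
        rw [max_eq_left (by linarith), max_eq_left (by linarith)]
        ring

/-- the three schemes -/
noncomputable def sch : Fin 3 → ℤ → ℝ
  | 0, _ => 1 / 2
  | 1, k => if k % 4 < 2 then 0 else 1
  | 2, k => if k % 4 < 2 then 1 else 0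

theorem sch_nonneg (i : Fin 3) (k : ℤ) : 0 ≤ sch i k := by
  fin_cases i <;> simp only [sch] <;> (try split_ifs) <;> norm_num

theorem sch_le_one (i : Fin 3) (k : ℤ) : sch i k ≤ 1 := by
  fin_cases i <;> simp only [sch] <;> (try split_ifs) <;> norm_num

theorem sch_add (i : Fin 3) (k : ℤ) : sch i k + sch i (k + 2) ≤ 1 := by
  fin_cases i
  · simp only [sch]; norm_num
  · show (if k % 4 < 2 then (0 : ℝ) else 1) + (if (k + 2) % 4 < 2 then (0 : ℝ) else 1) ≤ 1
    by_cases h : k % 4 < 2
    · rw [if_pos h, if_neg (by omega)]; norm_num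
    · rw [if_neg h, if_pos (by omega)]; norm_num
  · show (if k % 4 < 2 then (1 : ℝ) else 0) + (if (k + 2) % 4 < 2 then (1 : ℝ) else 0) ≤ 1
    by_cases h : k % 4 < 2
    · rw [if_pos h, if_neg (by omega)]; norm_num
    · rw [if_neg h, if_pos (by omega)]; norm_num

/-- number of schemes deleting a vertex -/
theorem sum_sch (k : ℤ) (f δ : ℝ) : ∑ i : Fin 3, (if sch i k + δ ≤ f then (1 : ℝ) else 0) =
    (if δ ≤ f then 1 else 0) + (if δ ≤ f - 1 / 2 then 1 else 0) + (if δ ≤ f - 1 then 1 else 0) := by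
  rw [Fin.sum_univ_three]
  have e0 : sch 0 k = 1 / 2 := rfl
  have e1 : sch 1 k = if k % 4 < 2 then 0 else 1 := rfl
  have e2 : sch 2 k = if k % 4 < 2 then 1 else 0 := rfl
  have c1 : (1 / 2 + δ ≤ f) ↔ (δ ≤ f - 1 / 2) := ⟨fun h => by linarith, fun h => by linarith⟩
  have c2 : (1 + δ ≤ f) ↔ (δ ≤ f - 1) := ⟨fun h => by linarith, fun h => by linarith⟩
  rw [e0, e1, e2]
  by_cases h : k % 4 < 2
  · simp only [if_pos h, zero_add, c1, c2]; ring
  · simp only [if_neg h, zero_add, c1, c2]; ring

theorem int_three (f P : ℝ) (hf : 0 ≤ f) :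
    ∫ θ in Set.Ioo (0 : ℝ) 1, (ind f P θ + ind (f - 1 / 2) P θ + ind (f - 1) P θ) ≤ 2 * f := by
  have hi : ∀ c, IntegrableOn (ind c P) (Set.Ioo 0 1) volume := fun c =>
    integrable_ind c P _ (by simp)
  have e1 : ∫ θ in Set.Ioo (0 : ℝ) 1, (ind f P θ + ind (f - 1 / 2) P θ + ind (f - 1) P θ) =
      (∫ θ in Set.Ioo (0 : ℝ) 1, (ind f P θ + ind (f - 1 / 2) P θ)) +
      ∫ θ in Set.Ioo (0 : ℝ) 1, ind (f - 1) P θ :=
    integral_add (f := fun θ => ind f P θ + ind (f - 1 / 2) P θ) (g := fun θ => ind (f - 1) P θ)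
      ((hi _).add (hi _)) (hi _)
  have e2 : ∫ θ in Set.Ioo (0 : ℝ) 1, (ind f P θ + ind (f - 1 / 2) P θ) =
      (∫ θ in Set.Ioo (0 : ℝ) 1, ind f P θ) + ∫ θ in Set.Ioo (0 : ℝ) 1, ind (f - 1 / 2) P θ :=
    integral_add (f := fun θ => ind f P θ) (g := fun θ => ind (f - 1 / 2) P θ) (hi _) (hi _)
  rw [e1, e2]
  have a1 := int_ind f P hf
  have a2 := int_ind_one f P
  have b2 := int_ind_one (f - 1 / 2) P
  have b1 : 0 ≤ f - 1 / 2 → _ := fun h => int_ind (f - 1 / 2) P h
  have b3 : f - 1 / 2 < 0 → _ := fun h => int_ind_neg (f - 1 / 2) P h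
  have c1 : 0 ≤ f - 1 → _ := fun h => int_ind (f - 1) P h
  have c3 : f - 1 < 0 → _ := fun h => int_ind_neg (f - 1) P h
  rcases lt_or_ge (f - 1 / 2) 0 with h | h
  · have := b3 h
    have := c3 (by linarith)
    linarith
  · rcases lt_or_ge (f - 1) 0 with h' | h'
    · have := b1 h
      have := c3 h'
      linarith
    · have := c1 h'
      linarith

/-- **Rounding lemma.** -/
theorem rounding {n : ℕ} (G : SimpleGraph (Fin n)) {v w : Fin n} (d : ℕ)
    (p u : Fin n → ℝ) (hpv : p v = 0) (hpw : p w = d) (huv : u v = 0) (huw : u w = 0)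
    (hu : ∀ x, 0 ≤ u x)
    (h : ∀ x y, G.Adj x y → p y - p x < 1 ∨ p y - p x ≤ (u x + u y) / 2) :
    ∃ (H : Finset (Fin n)) (Q : Fin n → ℤ), v ∉ H ∧ w ∉ H ∧ 3 * (H.card : ℝ) ≤ ∑ x, u x ∧
      Q v = 0 ∧ Q w = d ∧ ∀ x y, x ∉ H → y ∉ H → G.Adj x y → Q y ≤ Q x + 1 := by
  classical
  let D : ℝ → ℝ := fun θ => ∑ x, (ind (u x / 2) (p x) θ + ind (u x / 2 - 1 / 2) (p x) θ +
    ind (u x / 2 - 1) (p x) θ)
  have hi : ∀ c P, IntegrableOn (ind c P) (Set.Ioo 0 1) volume := fun c P =>
    integrable_ind c P _ (by simp)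
  have hDi : IntegrableOn D (Set.Ioo 0 1) volume :=
    integrable_finsetSum _ fun x _ => ((hi _ _).add (hi _ _)).add (hi _ _)
  have hDint : ∫ θ in Set.Ioo (0 : ℝ) 1, D θ ≤ ∑ x, u x := by
    simp only [D]
    rw [integral_finsetSum]
    · refine Finset.sum_le_sum fun x _ => ?_
      have := int_three (u x / 2) (p x) (by linarith [hu x])
      linarith
    · intro x _
      exact ((hi _ _).add (hi _ _)).add (hi _ _)
  obtain ⟨θ, hθ, hD⟩ := exists_le_setAverage (μ := volume) (s := Set.Ioo (0 : ℝ) 1) (f := D)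
    (by simp) (by simp) hDi
  have hD' : D θ ≤ ∑ x, u x := by
    refine hD.trans ?_
    rw [setAverage_eq]
    simpa using hDint
  let N : Fin n → ℤ := fun x => ⌊p x - θ⌋
  let s : Fin n → ℝ := fun x => Int.fract (p x - θ)
  have hNs : ∀ x, p x - θ = N x + s x := fun x => (Int.floor_add_fract (p x - θ)).symm
  have hs0 : ∀ x, 0 ≤ s x := fun x => Int.fract_nonneg _
  have hs1 : ∀ x, s x < 1 := fun x => Int.fract_lt_one _
  let H : Fin 3 → Finset (Fin n) := fun i =>
    univ.filter fun x => sch i (N x) + dl (s x) ≤ u x / 2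
  have hsum : ∑ i, ((H i).card : ℝ) = D θ := by
    have h1 : ∀ i, ((H i).card : ℝ) =
        ∑ x, (if sch i (N x) + dl (s x) ≤ u x / 2 then (1 : ℝ) else 0) := by
      intro i
      simp only [H]
      rw [Finset.card_filter]
      push_cast
      rfl
    simp only [h1]
    rw [Finset.sum_comm]
    refine Finset.sum_congr rfl fun x _ => ?_
    rw [sum_sch]
    rfl
  obtain ⟨i, hicard⟩ : ∃ i, 3 * ((H i).card : ℝ) ≤ ∑ x, u x := by
    by_contra hcon
    push Not at hcon
    rw [Fin.sum_univ_three] at hsum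
    have := hcon 0
    have := hcon 1
    have := hcon 2
    linarith
  have hdl0 : 0 < dl (1 - θ) := by
    unfold dl
    exact lt_min (by linarith [hθ.2]) (by linarith [hθ.1])
  have hNv : N v = -1 ∧ s v = 1 - θ := by
    have h1 : N v = -1 := by
      simp only [N, hpv]
      rw [Int.floor_eq_iff]
      push_cast
      exact ⟨by linarith [hθ.2], by linarith [hθ.1]⟩
    refine ⟨h1, ?_⟩
    have := hNs v
    rw [h1, hpv] at this
    push_cast at this
    linarith
  have hNw : N w = d - 1 ∧ s w = 1 - θ := by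
    have h1 : N w = d - 1 := by
      simp only [N, hpw]
      rw [Int.floor_eq_iff]
      push_cast
      exact ⟨by linarith [hθ.2], by linarith [hθ.1]⟩
    refine ⟨h1, ?_⟩
    have := hNs w
    rw [h1, hpw] at this
    push_cast at this
    linarith
  refine ⟨H i, fun x => N x + 1, ?_, ?_, hicard, ?_, ?_, ?_⟩
  · simp only [H, mem_filter, mem_univ, true_and, not_le, huv, hNv.2]
    have := sch_nonneg i (N v)
    linarith
  · simp only [H, mem_filter, mem_univ, true_and, not_le, huw, hNw.2]
    have := sch_nonneg i (N w)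
    linarith
  · simp only [hNv.1]; norm_num
  · simp only [hNw.1]; ring
  · intro x y hx hy hxy
    simp only [H, mem_filter, mem_univ, true_and, not_le] at hx hy
    by_contra hcon
    have hcon' : ¬ (N y + 1 ≤ N x + 1 + 1) := hcon
    have hge : N x + 2 ≤ N y := by omega
    have hgeR : (N x : ℝ) + 2 ≤ N y := by exact_mod_cast hge
    have e1 := hNs x
    have e2 := hNs y
    have hbig : 1 < p y - p x := by
      have := hs0 y; have := hs1 x
      linarith
    have hle : p y - p x ≤ (u x + u y) / 2 := by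
      rcases h x y hxy with h1 | h1
      · linarith
      · exact h1
    have hx' : u x / 2 < sch i (N x) + (1 - s x) := lt_of_lt_of_le hx (by
      have : dl (s x) ≤ 1 - s x := min_le_right _ _
      linarith)
    have hy' : u y / 2 < sch i (N y) + s y := lt_of_lt_of_le hy (by
      have : dl (s y) ≤ s y := min_le_left _ _
      linarith)
    have hlt : (N y : ℝ) - N x < 1 + sch i (N x) + sch i (N y) := by linarith
    rcases eq_or_lt_of_le hge with heq | hgt
    · have h3 := sch_add i (N x)
      rw [heq] at h3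
      have : (N y : ℝ) = N x + 2 := by rw [← heq]; push_cast; ring
      linarith
    · have h3 : (N x : ℝ) + 3 ≤ N y := by
        have : N x + 3 ≤ N y := by omega
        exact_mod_cast this
      have := sch_le_one i (N x)
      have := sch_le_one i (N y)
      linarith

end Pool.Agent.H86.Chung
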