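import Mathlib
import Pool.Agent.H86.Chung.Frac
import Pool.Agent.H86.Chung.Round

/-!
The upper bound `κ_d ≤ (d/3 + 1) μ_d`.
-/

set_option autoImplicit false

open Finset

namespace Pool.Agent.H86.Chung

theorem walk_pot {V : Type*} (G : SimpleGraph V) (A C H : Finset V) (Q : V → ℤ)
    (hQ : ∀ x y, x ∉ H → y ∉ H → G.Adj x y → Q y ≤ Q x + 1)
    (hA : ∀ x ∈ A, ∀ y, G.Adj x y → Q x + 1 ≤ Q y → y ∈ A ∨ y ∈ C) {x y : V} (p : G.Walk x y)
    (hp : ∀ z ∈ p.support, z ∉ H ∧ z ∉ C) :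
    Q y ≤ Q x + p.length ∧ (Q y = Q x + p.length → x ∈ A → y ∈ A) := by
  induction p with
  | nil => simp
  | @cons a b c hab p ih =>
    have hp' : ∀ z ∈ p.support, z ∉ H ∧ z ∉ C := fun z hz => hp z (by
      rw [SimpleGraph.Walk.support_cons]; exact List.mem_cons_of_mem _ hz)
    obtain ⟨h1, h2⟩ := ih hp'
    have ha := hp a (by rw [SimpleGraph.Walk.support_cons]; exact List.mem_cons_self)
    have hb := hp' b (SimpleGraph.Walk.start_mem_support p)
    have h3 := hQ a b ha.1 hb.1 hab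
    rw [SimpleGraph.Walk.length_cons]
    push_cast
    refine ⟨by omega, fun heq haA => ?_⟩
    have h4 : Q a + 1 ≤ Q b := by omega
    rcases hA a haA b hab h4 with h5 | h5
    · exact h2 (by omega) h5
    · exact absurd h5 hb.2

theorem upper {n : ℕ} (G : SimpleGraph (Fin n)) {v w : Fin n} (hvw : v ≠ w)
    (hadj : ¬ G.Adj v w) (d m : ℕ) (hno : ¬ Fam G v w d (m + 1)) :
    ∃ S : Finset (Fin n), v ∉ S ∧ w ∉ S ∧
      (∀ p : G.Walk v w, p.length ≤ d → ∃ x ∈ S, x ∈ p.support) ∧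
      (S.card : ℝ) ≤ ((d : ℝ) / 3 + 1) * m := by
  classical
  obtain ⟨p, u, hpv, hpw, huv, huw, hu, husum, hedge⟩ := frac G hvw hadj d m hno
  obtain ⟨H, Q, hvH, hwH, hH, hQv, hQw, hQ⟩ := rounding G d p u hpv hpw huv huw hu hedge
  obtain ⟨A, C, hvA, hwA, hvC, hwC, _, hC, hcl⟩ := cut G hvw hadj d m hno Q hQv hQw
  refine ⟨H ∪ C, ?_, ?_, ?_, ?_⟩
  · rw [mem_union, not_or]; exact ⟨hvH, hvC⟩
  · rw [mem_union, not_or]; exact ⟨hwH, hwC⟩
  · intro P hP
    by_contra hcon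
    push Not at hcon
    have h1 := walk_pot G A C H Q hQ hcl P (fun z hz => by
      have h2 : z ∉ H ∪ C := fun h => hcon z h hz
      rw [mem_union, not_or] at h2
      exact h2)
    rw [hQv, hQw] at h1
    exact hwA (h1.2 (by omega) hvA)
  · have h1 : ((H ∪ C).card : ℝ) ≤ H.card + C.card := by exact_mod_cast card_union_le H C
    have h2 : (C.card : ℝ) ≤ m := by exact_mod_cast hC
    have h3 : 3 * (H.card : ℝ) ≤ d * m := hH.trans husum
    nlinarith

end Pool.Agent.H86.Chung
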